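import Pool.Agent.Q283.FT.D.NInvB

/-! # The contribution of a subspace which is not invariant -/

set_option autoImplicit false

namespace Pool.Agent.Q283.FT.D

open Finset Module Pool.Agent.Q283.FT
open Pool.Agent.Y703.CQ (prs)

open scoped Classical

section main

variable {s V U ι : Type} [Fintype s] [AddCommGroup V] [Module (ZMod 2) V]
  [Fintype U] [Fintype ι] [LinearOrder ι]

/-- the bound for one coset -/
theorem coset [Fintype V] (D : Dj s V) (hs : D.Sym) (nd : ∀ x, (∀ y, D.ω x y = 0) → x = 0)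
    (b : Bk s U ι) (Λ : Submodule (ZMod 2) (V × V)) (hΛ : ∀ z ∈ Λ, D.ω z.2 z.1 = 0)
    (hc : Nat.card Λ = Nat.card V) (φ : s → ZMod 2) (hφ : sgz φ D.s₀ = 0)
    (hex : ∃ z ∈ Λ, (D.T φ z.1, D.T φ z.2) ∉ Λ)
    (χ : ((s → V) × (U ⊕ ι → V)) →ₗ[ZMod 2] ZMod 2) (δ : s → V) (y : U → V) (z : V × V) :
    |∑ l : ι → Λ, sg (χ (δ, Sum.elim y (fun i => z.1 + (l i : V × V).1)) +
      ∑ i, D.ω (z.2 + (l i : V × V).2) (rowL D (b.N D.s₀ 0) b.h
        (δ, Sum.elim y (fun i => z.1 + (l i : V × V).1)) (Sum.inr i)))| ≤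
      (Fintype.card Λ : ℝ) ^ Fintype.card ι / 2 ^ (univ.filter fun i => b.hJ i = φ).card := by
  set M : Finset ι := univ.filter fun i => b.hJ i = φ with hM
  obtain ⟨B, hB⟩ : ∃ B : ι → V →ₗ[ZMod 2] ZMod 2, ∀ i v, B i v = χ (0, Pi.single (Sum.inr i) v) :=
    ⟨fun i => χ.comp ((LinearMap.inr (ZMod 2) (s → V) (U ⊕ ι → V)).comp
      (LinearMap.single (ZMod 2) (fun _ : U ⊕ ι => V) (Sum.inr i))), fun i v => rfl⟩
  obtain ⟨a, ha⟩ : ∃ a : ι → V × V → ZMod 2, ∀ i l, a i l = B i (z.1 + l.1) +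
      D.ω (z.2 + l.2) (∑ u, b.C i u • (y u + (z.1 + l.1)) + D.T (b.hJ i) (z.1 + l.1) +
        ∑ t, b.hJ i t • δ t) := ⟨_, fun _ _ => rfl⟩
  obtain ⟨bb, hbb⟩ : ∃ bb : ι → ι → V × V → V × V → ZMod 2, ∀ i j l l', bb i j l l' =
      (if j < i then sgz (b.hJ i) D.s₀ * sgz (b.hJ j) D.s₀ else 0) *
        D.ω (z.2 + l.2) ((z.1 + l'.1) + (z.1 + l.1)) := ⟨_, fun _ _ _ _ => rfl⟩
  have hb0 : ∀ i j l l', (i ∈ M ∨ j ∈ M) → bb i j l l' = 0 := by
    intro i j l l' h
    have h1 : sgz (b.hJ i) D.s₀ * sgz (b.hJ j) D.s₀ = 0 := by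
      rcases h with h | h
      · rw [(mem_filter.1 h).2, hφ, zero_mul]
      · rw [(mem_filter.1 h).2, hφ, mul_zero]
    rw [hbb, h1, ite_self, zero_mul]
  refine sum_sep (L := Λ) M _ (fun m => χ (δ, Sum.elim y 0) +
    ∑ i : {i // i ∉ M}, a i (m i : V × V) +
    ∑ i : {i // i ∉ M}, ∑ j : {i // i ∉ M}, bb i j (m i : V × V) (m j : V × V))
    (fun i l => a i (l : V × V)) (fun l => ?_) (fun i hi => ?_)
  · rw [chi_split, expo]
    have e3 : ∑ i, ∑ j, bb i j (l i : V × V) (l j : V × V) =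
        ∑ i : {i // i ∉ M}, ∑ j : {i // i ∉ M}, bb i j (l i : V × V) (l j : V × V) := by
      rw [sum_off M _ fun i hi => Finset.sum_eq_zero fun j _ => hb0 i j _ _ (Or.inl hi)]
      refine Finset.sum_congr rfl fun i _ => ?_
      exact sum_off M _ fun j hj => hb0 _ j _ _ (Or.inr hj)
    have e4 : ∑ i, a i (l i : V × V) =
        ∑ i : {i // i ∉ M}, a i (l i : V × V) + ∑ i ∈ M, a i (l i : V × V) := by
      rw [← Finset.sum_add_sum_compl M, add_comm]
      congr 1
      exact Finset.sum_subtype _ (fun i => by simp) _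
    have e5 : ∑ i, a i (l i : V × V) = ∑ i, χ (0, Pi.single (Sum.inr i) (z.1 + (l i : V × V).1)) +
        ∑ i, D.ω (z.2 + (l i : V × V).2) (∑ u, b.C i u • (y u + (z.1 + (l i : V × V).1)) +
          D.T (b.hJ i) (z.1 + (l i : V × V).1) + ∑ t, b.hJ i t • δ t) := by
      rw [← Finset.sum_add_distrib]
      refine Finset.sum_congr rfl fun i _ => ?_
      rw [ha, hB]
    have e6 : ∑ i, ∑ j, bb i j (l i : V × V) (l j : V × V) = ∑ i, ∑ j,
        (if j < i then sgz (b.hJ i) D.s₀ * sgz (b.hJ j) D.s₀ else 0) *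
        D.ω (z.2 + (l i : V × V).2) ((z.1 + (l j : V × V).1) + (z.1 + (l i : V × V).1)) :=
      Finset.sum_congr rfl fun i _ => Finset.sum_congr rfl fun j _ => hbb _ _ _ _
    rw [← e6, e3]
    linear_combination e4 - e5
  · have hφi : b.hJ i = φ := (mem_filter.1 hi).2
    refine gauss_one D hs nd Λ hΛ hc φ hφ hex (B i) (b.C i) y z (∑ t, b.hJ i t • δ t) (a i)
      fun l => ?_
    rw [ha, hφi]

theorem t_NINV : S_NINV := by
  intro s V U ι _ _ _ _ _ _ _ D ρ hD b hb Λ hΛ hcard φ hφ hex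
  have hcΛ : Fintype.card Λ = Fintype.card V := by
    rw [← Nat.card_eq_fintype_card, hcard]
  have hc : Nat.card Λ = Nat.card V := by
    rw [hcard, Nat.card_eq_fintype_card]
  set m : ℕ := (univ.filter fun i => b.hJ i = φ).card with hm
  set E := EU D b with hE
  set v : ℝ := (Fintype.card V : ℝ) with hv
  have hv1 : 1 ≤ v := by
    rw [hv]
    exact_mod_cast Fintype.card_pos
  have hv0 : 0 < v := by linarith
  set G : ((s → V) × (U ⊕ ι → V)) → (ι → V) → ZMod 2 := fun e W =>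
    ∑ i, D.ω (W i) (rowL D (b.N D.s₀ 0) b.h e (Sum.inr i)) with hG
  -- the sum over the families with differences in `Λ`
  have hZ : ∀ (χ : ((s → V) × (U ⊕ ι → V)) →ₗ[ZMod 2] ZMod 2) (δ : s → V) (y : U → V),
      |∑ Z : ι → V × V, (if ∀ i j, Z i + Z j ∈ Λ then
        sg (χ (δ, Sum.elim y (fun i => (Z i).1)) + G (δ, Sum.elim y (fun i => (Z i).1))
          (fun i => (Z i).2)) else 0)| ≤ v * v ^ Fintype.card ι / 2 ^ m := by
    intro χ δ y
    rcases isEmpty_or_nonempty ι with hι | hι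
    · have hm0 : m = 0 := by
        rw [hm, Finset.card_eq_zero]
        exact Finset.eq_empty_of_isEmpty _
      rw [hm0, pow_zero, div_one, Fintype.card_eq_zero (α := ι), pow_zero, mul_one]
      refine (Finset.abs_sum_le_sum_abs _ _).trans ?_
      refine (Finset.sum_le_sum (g := fun _ => (1 : ℝ)) fun Z _ => ?_).trans ?_
      · split_ifs
        · exact (abs_sg _).le
        · simp
      · rw [Finset.sum_const, Finset.card_univ, Fintype.card_fun, Fintype.card_eq_zero (α := ι),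
          pow_zero, nsmul_eq_mul]
        simpa using hv1
    · have h1 := sum_diff Λ (fun Z : ι → V × V =>
        sg (χ (δ, Sum.elim y (fun i => (Z i).1)) + G (δ, Sum.elim y (fun i => (Z i).1))
          (fun i => (Z i).2)))
      beta_reduce at h1
      have h2 : |∑ z : V × V, ∑ l : ι → Λ,
          sg (χ (δ, Sum.elim y (fun i => (z + (l i : V × V)).1)) +
            G (δ, Sum.elim y (fun i => (z + (l i : V × V)).1)) (fun i => (z + (l i : V × V)).2))| ≤
          v ^ 2 * (v ^ Fintype.card ι / 2 ^ m) := by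
        refine (Finset.abs_sum_le_sum_abs _ _).trans ?_
        refine (Finset.sum_le_card_nsmul univ _ _ (fun z _ =>
          coset D hD.toSym hD.nd b Λ hΛ hc φ hφ hex χ δ y z)).trans ?_
        rw [Finset.card_univ, Fintype.card_prod, nsmul_eq_mul, hcΛ]
        push_cast
        rw [sq]
      rw [← h1, abs_mul, abs_of_nonneg (Nat.cast_nonneg _), hcΛ] at h2
      have h3 : v * (v * v ^ Fintype.card ι / 2 ^ m) = v ^ 2 * (v ^ Fintype.card ι / 2 ^ m) := by
        ring
      rw [← h3] at h2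
      exact le_of_mul_le_mul_left h2 hv0
  -- the sum with a character
  have hχ : ∀ χ : ((s → V) × (U ⊕ ι → V)) →ₗ[ZMod 2] ZMod 2,
      |∑ e : (s → V) × (U ⊕ ι → V), ∑ W : ι → V,
        (if ∀ i j, (e.2 (Sum.inr i) + e.2 (Sum.inr j), W i + W j) ∈ Λ then
          sg (χ e + G e W) else 0)| ≤
        v ^ (1 + Fintype.card s + Fintype.card U + Fintype.card ι) / 2 ^ m := by
    intro χ
    rw [sum_split]
    refine (Finset.abs_sum_le_sum_abs _ _).trans ?_
    have h1 : ∀ δ ∈ (univ : Finset (s → V)), |∑ y : U → V, ∑ Z : ι → V × V,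
        (if ∀ i j, ((Sum.elim y (fun i => (Z i).1) : U ⊕ ι → V) (Sum.inr i) +
          (Sum.elim y (fun i => (Z i).1) : U ⊕ ι → V) (Sum.inr j), (Z i).2 + (Z j).2) ∈ Λ then
          sg (χ (δ, Sum.elim y (fun i => (Z i).1)) + G (δ, Sum.elim y (fun i => (Z i).1))
            (fun i => (Z i).2)) else 0)| ≤
        v ^ Fintype.card U * (v * v ^ Fintype.card ι / 2 ^ m) := by
      intro δ _
      refine (Finset.abs_sum_le_sum_abs _ _).trans ?_
      refine (Finset.sum_le_card_nsmul univ _ _ (fun y _ => hZ χ δ y)).trans ?_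
      rw [Finset.card_univ, Fintype.card_fun, nsmul_eq_mul]
      push_cast
      exact le_rfl
    refine (Finset.sum_le_card_nsmul univ _ _ h1).trans (le_of_eq ?_)
    rw [Finset.card_univ, Fintype.card_fun, nsmul_eq_mul]
    push_cast
    rw [← hv, pow_add, pow_add, pow_add, pow_one]
    ring
  -- the mean over the characters
  have hfin : Finite (Dual (ZMod 2) ((s → V) × (U ⊕ ι → V))) := DFunLike.finite _
  have hfin' : Fintype E.dualAnnihilator := Fintype.ofFinite _
  have hA0 : (0 : ℝ) < Fintype.card E.dualAnnihilator := by exact_mod_cast Fintype.card_pos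
  have h5 : (Fintype.card E.dualAnnihilator : ℝ) *
      ∑ e : (s → V) × (U ⊕ ι → V), ∑ W : ι → V, (if e ∈ E ∧
        (∀ i j, (e.2 (Sum.inr i) + e.2 (Sum.inr j), W i + W j) ∈ Λ) then sg (G e W) else 0) =
      ∑ χ : E.dualAnnihilator, ∑ e : (s → V) × (U ⊕ ι → V), ∑ W : ι → V,
        (if ∀ i j, (e.2 (Sum.inr i) + e.2 (Sum.inr j), W i + W j) ∈ Λ then
          sg ((χ : Dual (ZMod 2) _) e + G e W) else 0) := by
    rw [Finset.mul_sum, Finset.sum_comm]
    refine Finset.sum_congr rfl fun e _ => ?_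
    rw [Finset.mul_sum, Finset.sum_comm]
    refine Finset.sum_congr rfl fun W _ => ?_
    by_cases h6 : ∀ i j, (e.2 (Sum.inr i) + e.2 (Sum.inr j), W i + W j) ∈ Λ
    · simp only [if_pos h6, sg_add]
      rw [← Finset.sum_mul, indic E e]
      by_cases h7 : e ∈ E
      · rw [if_pos h7, if_pos ⟨h7, h6⟩]
      · rw [if_neg h7, if_neg (fun h => h7 h.1), mul_zero, zero_mul]
    · simp only [if_neg h6, Finset.sum_const_zero]
      rw [if_neg (fun h => h6 h.2), mul_zero]
  have h6 : (Fintype.card E.dualAnnihilator : ℝ) *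
      |∑ e : (s → V) × (U ⊕ ι → V), ∑ W : ι → V, (if e ∈ E ∧
        (∀ i j, (e.2 (Sum.inr i) + e.2 (Sum.inr j), W i + W j) ∈ Λ) then sg (G e W) else 0)| ≤
      (Fintype.card E.dualAnnihilator : ℝ) *
        (v ^ (1 + Fintype.card s + Fintype.card U + Fintype.card ι) / 2 ^ m) := by
    rw [← abs_of_pos hA0, ← abs_mul, abs_of_pos hA0, h5]
    refine (Finset.abs_sum_le_sum_abs _ _).trans ?_
    refine (Finset.sum_le_sum fun (χ : E.dualAnnihilator) _ => hχ χ.1).trans (le_of_eq ?_)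
    rw [Finset.sum_const, Finset.card_univ, nsmul_eq_mul]
  exact le_of_mul_le_mul_left h6 hA0

end main

end Pool.Agent.Q283.FT.D
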